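import Mathlib
import Pool.Agent.TH170.GS.Main
import Pool.Agent.Y1.KN.All
import Pool.Agent.Y1.KN.Use
import Pool.Agent.TH170.GS.TB

/-!
# The generalized conjecture of Tate and Beilinson for schemes over finite fields: almost all slope
types of all CM fields with few CM subfields, and of all CM fields whose degree has a large prime
factor

Over an algebraic closure of the field with `p` elements each abelian variety is isogenous to the
reduction of an abelian variety of CM type (Honda, Tate). So an abelian variety over the field with
`p ^ a` elements is modelled by `RedAV`: a finite product of CM types `(E i, Φ i)` with Weil numbers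
`π i ∈ E i` that satisfy the formula of Shimura and Taniyama; its cohomology of degree `n`, with
coefficients in an algebraically closed field `Ω`, consists of the alternating `n`-forms on `Ω ⊗
H_1`, on which the Frobenius endomorphism acts by `π`. We fix an isomorphism `ν` of the algebraic
closure of `ℚ_p` with `ℂ`; it defines a `p`-adic valuation of `ℂ`, with the value one at `p`.

Let `K i` be finitely many CM fields, of degrees `2 g i`, that are pairwise independent: for `i ≠ k`
and all complex embeddings `φ` of `K i` and `ψ` of `K k` some automorphism of `ℂ` is the identity on
`φ (K i)` and the complex conjugation on `ψ (K k)` (this is no condition for one field). Nothing is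
assumed about their Galois groups. Let `M i` be a function with nonzero integral values, all of
which divide `n i`, on the complex embeddings of `K i`, invariant under complex conjugation (the
weights). A CM type `Φ i` of `K i` (a choice of one element out of each complex conjugate pair of
embeddings; there are `2 ^ (g i)` types), `M i` and a real number `κ ≠ 0` prescribe the slopes `(a +
κ M) / 2` (at the embeddings in `Φ i`) and `(a - κ M) / 2` (outside of `Φ i`) of a Weil number in `K
i`. If `p` splits completely in `K i` then, by Honda and Tate, all slopes with rational values
between `0` and `a` that are symmetric in this way occur for abelian varieties. The case `M = 1`, `κ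
= a` is the ordinary case; the assumption on `M` says that `a / 2` is not a slope. Slopes are
rational, so integral weights `M` are no restriction.

For a family of types `Φ i` let `𝒞` (`OfTypes`) be the class of the abelian varieties `Y` each of
whose factors is supersingular or has a Frobenius endomorphism some power of which is, for some `i`,
a Weil number in `K i` with the slopes prescribed by `Φ i`, `M i` and some real number `κ i ≠ 0`
(which depends only on `Y` and `i`). So `Y` is, over an algebraic closure, isogenous to a product of
powers of one abelian variety for each `i`, with the given slopes, and of a supersingular one.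

`Homology Ω V` are data of motivic homology `M X i j = H_i^M(X, ℚ(j)) = CH_j(X, i - 2 j) ⊗ ℚ` and of
`ℓ`-adic homology `E X i j = H_i(X, ℚ_ℓ(j))` (coefficients extended to `Ω`) of schemes `X` of finite
type over a finite field (the elements of `V`), with the Frobenius and the regulator. For a family
of types let `𝒢` be the smallest class (`Generated`) of such schemes that contains those with the
homology groups of abelian varieties in `𝒞` (`IsAbelianOfTypes`), that is closed under direct
summands of finite sums of twists of motives, and that contains all of a closed subscheme `Z` of
`X`, `X` and `X ∖ Z` if it contains two of them. It contains for instance all products of varieties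
in `𝒞`, all products of curves with Jacobians in `𝒞` and of open subsets of such curves, symmetric
powers of them, and the singular and the open varieties with a stratification by such varieties.

The property `Q` (`Holds`) of a family of types: **for all schemes `X` in `𝒢` - smooth or not,
proper or not - Jannsen's conjecture `TB(X)` is true:** for all `i`, `j` the regulator induces an
isomorphism of `H_i^M(X, ℚ(j)) ⊗ Ω` with the space of the Frobenius invariant elements in `H_i(X,
ℚ_ℓ(j)) ⊗ Ω`, and the eigenvalue one of the Frobenius on it is semisimple.

Properties of the theory of cycles that are used for the abelian varieties (`IsChow`, `IsMotivic`):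
Poincaré duality, the formal properties of correspondences, the nilpotence of homologically trivial
correspondences (Kimura), the operation of the Frobenius endomorphism on higher Chow groups, the
vanishing of the higher rational `K`-groups of a finite field (Quillen), and the algebraicity of the
classes in `Alg` (of which only products of classes of divisors matter here, theorem of Tate). The
passage from the Tate conjecture to all degrees and to the class `Generated` is due to Soulé,
Geisser, Kahn and Jannsen; it was formalized in the starting files.

A family of types is exceptional (`exceptionalFamilies ν K M`) if the property `Q` (`Holds`) is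
false for it. The theorem bounds the number of the exceptional families: it is at most `2 ^ (∑ i, g
i) * ∑ i, C * (n i) ^ 2 * rate (K i) (g i) (q i)`, with an absolute constant `C`. Here `q i` is any
prime factor of `g i` (or `q i = 1`), and `rate K g q` is `(1 + log (2 g)) ^ 16` times the smaller
of the numbers

* `W (K) / √g`, where (second part of the theorem, `WeightEstimate`) `W (K) ≤ N ^ 2 * D ^ (1 / 4)`;
  `N` is the number of the CM subfields of `K` (with `K`) and `D` is the largest degree of a CM
  subfield of `K` that is normal over `ℚ` with a nonabelian Galois group (`D = 1` if there are
  none);
* `√g / q`.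

So the exceptional types are a proportion `O (n ^ 2 * g ^ (-1 / 4) * (log g) ^ 16)` of all types of
all CM fields with a bounded number of CM subfields, and `O (n ^ 2 * g ^ (-1 / 2) * (log g) ^ 16)`
if the normal nonabelian ones have bounded degrees (for instance if `K` has no proper CM subfields
and is not normal). And they are a proportion `O (n ^ 2 * g ^ (-δ) * (log g) ^ 16)` of the types of
all CM fields `K`, with any number of subfields, whose degree is divisible by a prime number `q ≥ g
^ (1 / 2 + δ)`; for small `δ` there are such primes for about `log 2`, that is 69%, of all numbers
`g`. Some assumption is necessary: a multiquadratic CM field of degree `2 g` has `g` imaginary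
quadratic subfields, and almost all of its types are degenerate. Nothing is assumed about the Galois
groups.

The number `W (K)` (`subfieldWeight K`) is defined as follows. The automorphisms of `ℂ` act on the
rational functions on the set of the complex embeddings of `K` which change their sign under complex
conjugation. A field of definition (`fieldsOfDefinition K`) of an isotypic component of this
representation is a smallest subfield `F` of `K` such that the values of the functions in the
component depend only on the restrictions of the embeddings to `F`. It is a CM field. Then `W (K)`
is the sum over these fields `F` of the number of the CM subfields of `F`, multiplied by `[F : ℚ] ^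
(1 / 4)` if `F` is normal over `ℚ` and its Galois group is not abelian.

The proof: if the types have no relations then all relations between the Frobenius eigenvalues of
`Y` come from complex conjugate pairs and from supersingular factors, and the Tate classes are
generated by classes of divisors (`TH170/GS`, `TH117` of the starting files). The bound for the
number of the degenerate types (the counting part of the theorem) is the one of `AllCMFields`
(MP_e12fcd_ag, MP_ee618e_ag) of the starting files.
-/

set_option autoImplicit false

namespace Pool.Agent.Results.MP_2ce3e7_ag.AllCMFields

open NumberField Module Pool.Agent.H204R3.CM Pool.Agent.H977R3.CM Pool.Agent.TH170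
  Pool.Agent.Y1.KN

open Pool.Agent.W495.TA Pool.Agent.W495.FM

/-- Jannsen's conjecture `TB(X)` for all schemes `X` generated by abelian varieties with the slope
types `Φ`. -/
def Holds {p : ℕ} [Fact p.Prime] (ν : PadicAlgCl p ≃+* ℂ) {I : Type} (K : I → Type)
    [∀ i, Field (K i)] (M : ∀ i, (K i →+* ℂ) → ℤ) (Φ : ∀ i, Set (K i →+* ℂ)) : Prop :=
  ∀ (Ω : Type) [Field Ω] [IsAlgClosed Ω] [CharZero Ω] (V : Type) (T : Homology Ω V), IsHomology T →
    ∀ X : V, Generated T (GS.IsAbelianOfTypes ν K M Φ T) X → TB T X

/-- The exceptional families of CM types. -/
def exceptionalFamilies {p : ℕ} [Fact p.Prime] (ν : PadicAlgCl p ≃+* ℂ) {I : Type} (K : I → Type)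
    [∀ i, Field (K i)] (M : ∀ i, (K i →+* ℂ) → ℤ) : Set (∀ i, Set (K i →+* ℂ)) :=
  {Φ | (∀ i, IsCMType (Φ i)) ∧ ¬ Holds ν K M Φ}

theorem holds_of {p : ℕ} [Fact p.Prime] {ν : PadicAlgCl p ≃+* ℂ} {I : Type} (K : I → Type)
    [∀ i, Field (K i)] (M : ∀ i, (K i →+* ℂ) → ℤ) (Φ : ∀ i, Set (K i →+* ℂ))
    (h : ∀ Y : RedAV p ν, GS.OfTypes K M Φ Y → ∃ Z : RedAV p ν,
      TH117.BL.HasElementaryRelations Z ∧ TH117.BL.IsPowersTimesSupersingular Z Y) :
    Holds ν K M Φ := fun _ _ _ _ _ _ hT _ hX => GS.tb_types h hT hX

/-- **Jannsen's conjecture `TB(X)` for all schemes generated by abelian varieties
with almost all slope types of all CM fields with few CM subfields, and of all CM fields whose degree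
has a large prime factor.** -/
theorem result :
    (∃ C : ℝ, 0 ≤ C ∧ ∀ (p : ℕ) [Fact p.Prime] (ν : PadicAlgCl p ≃+* ℂ) (I : Type) [Fintype I]
      (K : I → Type) [∀ i, Field (K i)] [∀ i, NumberField (K i)] [∀ i, IsCMField (K i)]
      (M : ∀ i, (K i →+* ℂ) → ℤ) (n g q : I → ℕ), PairwiseIndep K →
      (∀ i φ, M i (ComplexEmbedding.conjugate φ) = M i φ) → (∀ i, n i ≠ 0) →
      (∀ i φ, M i φ ∣ (n i : ℤ)) → (∀ i, finrank ℚ (K i) = 2 * g i) →
      (∀ i, q i ∣ g i ∧ (q i = 1 ∨ (q i).Prime)) →
      ((exceptionalFamilies ν K M).ncard : ℝ) ≤
        2 ^ (∑ i, g i) * ∑ i, C * (n i : ℝ) ^ 2 * rate (K i) (g i) (q i)) ∧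
    WeightEstimate := by
  obtain ⟨C, hC0, hC⟩ := slope families_holds
  refine ⟨⟨C, hC0, ?_⟩, weight_estimate_holds⟩
  intro p _ ν I _ K _ _ _ M n g q hind hM hn hMn hg hq
  exact hC p ν I K M n g q hind hM hn hMn hg hq _ fun Φ h => holds_of K M Φ h

end Pool.Agent.Results.MP_2ce3e7_ag.AllCMFields
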