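import Pool.Agent.Run7.h306.TBProof

/-!
# The generalized conjecture of Tate and Beilinson for products of arbitrary schemes with cyclic
# coverings branched along hyperplanes

Let `κ` be a finite field with `q = c ^ f` elements, and `𝒱` a class of smooth projective varieties over
`κ`, closed under products, with Chow groups `A` with rational coefficients and a Weil cohomology theory
`H` (framework of helper492 and helper484: `TheoryData`, `IsChow`, `IsWeil`). Let `X_i` be varieties in
`𝒱`, of any dimensions `n_i`, which are models of cyclic coverings

  `w ^ N_i = ∏ l_{i,k} (x) ^ a_{i,k}`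

of projective spaces, branched along hyperplanes `l_{i,k} = 0` over `κ`, with exponents prime to `N_i`,
where `N_i` divides `q - 1` (`IsModel`: the cohomology is generated by the classes of cycles and a part
`T`, pure of weight `n_i`, without invariants under the covering group, for which the trace formula
holds). Let `N` be a common multiple of the `N_i`, and `λ` an integer such that `IsSmall N λ` holds: for
every nonempty finite set `I` of indices and all `j_i` not divisible by `N_i` (`i ∈ I`) there is a `u`
prime to `N` with `∑_{i ∈ I} weight X_i (u j_i) + λ / 2 < ∑_{i ∈ I} (n_i / 2 + 1)`; here `weight X j` is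
the mean over the orbit `j, c j, …, c ^ (f - 1) j` of the sum of the fractional parts of `j a_k / N_i`.

Let `U` be **any** separated scheme of finite type over `κ` (open, singular, reducible, nonreduced),
`e = dim U`, and let `Z` be in `𝒱` (for example a point). `M = ⨁ M^c` with
`M^c = H_{2e-c}(Ū, ℚ_ℓ(e)) ⊗ K` is the étale homology of `U`, with the geometric Frobenius `μ`
(`Homology`). By the Künneth formula `H_i(X̄ × Ū, ℚ_ℓ(j)) ⊗ K` is, up to the twist, the part `IsEtale` of
degree `2 (dim X + e) - i` of `R(X) = H(X) ⊗ M`; the eigenvalue `1` of the Frobenius on it is the
eigenvalue `q ^ (dim X + e - j)` of `Φ = F_X ⊗ μ`, and `frobeniusDefect` is `Φ` minus this number. For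
each `m` the theory `T m` is given by the higher Chow groups `CH_j(X × U, m) ⊗ K` (`motivic`, with
`m = i - 2 j`), zero for `m < 0`, with the operations of the correspondences between the varieties in `𝒱`
and of the Frobenius of `U`, and `reg` are the regulators (`IsMotivicHomology`, `IsRegulator`).

Let `χ` be a polynomial with rational coefficients, `χ(0) ≠ 0`, with `χ(μ) = 0`. We assume that the
products `b` of the eigenvalues of Frobenius on `H(Z)` and the complex roots of `χ` are of the form
`|b| ^ 2 = q ^ j` (theorem of Deligne) and that
* either `λ = 0` and the cyclotomic polynomial of order `N` is irreducible over the field generated by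
  the numbers `b` (for given `Z` and `U` this is true for all `N` prime to the discriminant of this field),
* or `Z × U` is of level `≤ λ`: the numbers `q ^ λ b / b̄` are algebraic integers. This is true if
  `dim Z + dim U ≤ λ`.

**Theorem.** Let `V` be the product of `Z` and of finitely many of the `X_i` (pairwise different), and
`d = dim V - dim Z`. For all integers `i`, `j`:
* the regulator of `V × U` in degree `i` and twist `j` is surjective onto the invariants of the Frobenius
  if and only if the regulators of `Z × U` in degree `i - 2 l` and twist `j - l` are, for `0 ≤ l ≤ d`;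
* the eigenvalue `1` is semisimple on `H_i(V × U, ℚ_ℓ(j))` if and only if it is semisimple on
  `H_{i - 2l}(Z × U, ℚ_ℓ(j - l))` for `0 ≤ l ≤ d`.
* If homologically trivial self-correspondences of degree zero of the products `V` are nilpotent (known
  for example if `Z` is a point and the `X_i` are curves or have `n_i + 2` branch hyperplanes in general
  position) and `χ (φ) = 0` on the higher Chow groups of the `X × U`, then the same is true for the
  injectivity of the regulators, and **Jannsen's conjecture `TB(V × U)` is equivalent to `TB(Z × U)`**;
  for `Z` a point, to `TB(U)`.

The conditions allow for instance the varieties `w ^ N = l_1 ⋯ l_N` of dimension `n = N - 2`, with `N`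
hyperplanes in general position, for a prime number `N` dividing `c - 1`, and **all schemes `U` of
dimension smaller than `n`**.

In the starting files are the cases `i = 2 j` (Chow groups, `MP_3af9db_ag.HyperplaneCoverings`) and the
surjectivity in all degrees for smooth `U` (`MP_81b968_ag.HyperplaneCoverings`), both by helper876, on
whose general theorems (`N876/CG`) the proof is based: by the theorem of Stickelberger on Gauss sums no
product of eigenvalues of the Frobenius on the parts `T` of several `X_i` and of a number `b` is a power
of `q`; so a projector which is given by algebraic cycles and polynomials in the Frobenius, and whose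
image is a sum of twists of `V' × U`, `V = X_i × V'`, is the identity on the homology groups in
question, motivic and étale.
-/

set_option autoImplicit false

open Polynomial CategoryTheory AlgebraicGeometry

namespace Pool.Agent.Results.MP_2ce3e7_ag.CoveringsTimesSchemes

open Pool.Agent.H914 Pool.Agent.H914.VarClass Pool.Agent.H914.VarClass.Obj Pool.Agent.W492.BB
  Pool.Agent.W484.CK Pool.Agent.N876.GB3 Run7.h306.TB

/-- **`TB(V × U)` is equivalent to `TB(Z × U)`**, for products `V` of `Z` and of cyclic coverings
branched along hyperplanes, and arbitrary schemes `U`. -/
theorem result (c : ℕ) [Fact c.Prime] (κ : Type) [Field κ] [Fintype κ] [CharP κ c] {ι : Type}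
    (C : ι → Covering κ) (f N lam : ℕ) (hC : IsSmallSystem C c f N lam)
    {𝒱 : VarClass κ} (A : TheoryData.{0, 0, 0} 𝒱 ℚ) [IsChow A] {K : Type} [Field K]
    [IsAlgClosed K] [CharZero K] (H : WeilTheoryData.{0, 0, 0} A K) [IsWeil H] (τ : K →+* ℂ)
    (F : ∀ X : 𝒱.Obj, X ⟶ X) (X : ι → 𝒱.Obj) (Z : 𝒱.Obj) (χ : ℚ[X])
    (h : IsCoveringSystem C N lam H τ F X Z χ) (U : Homology K) (hU : IsHomology U χ)
    (T : ℤ → Theory A) (hT : IsMotivicHomology T F (Fintype.card κ))
    (reg : ∀ (m : ℤ) (X : 𝒱.Obj), (T m).M X → U.R H X) (hreg : IsRegulator T reg)
    (L : List ι) (hL : L.Nodup) :
    Conclusions F (Fintype.card κ) χ X Z T reg L :=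
  main c κ C f N lam hC A H τ F X Z χ h U hU T hT reg hreg L hL

end Pool.Agent.Results.MP_2ce3e7_ag.CoveringsTimesSchemes
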