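import Pool.Agent.Run7.h798.TB.Theory

/-!
# MP_2ce3e7_ag, Q1: the Tate-Beilinson conjecture and cubic hypersurfaces of trilinear forms
-/

set_option autoImplicit false

open CategoryTheory AlgebraicGeometry Pool.Agent.Y116.UV Pool.Agent.Q193.LT Pool.Agent.Q282.UZ
  Run7.h798.UV Run7.h798.TB

universe w

namespace Pool.Agent.Results.MP_2ce3e7_ag.SparseCubics

/-- TB holds in the degrees `i - 2j ≥ N` for the affine cubic hypersurfaces
`∑_{(i, j, l) ∈ H} x_i y_j z_l = 1` over the prime field, for all finite sets `H` of triples such that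
each variable `x_i` occurs in at most three terms. -/
def Cubics {p : ℕ} [Fact p.Prime] {E : Type} [Field E] (D : Theory.{w} p E) (N : ℤ) : Prop :=
  ∀ (a b c : ℕ) (H : Finset (Fin a × Fin b × Fin c)),
    (∀ l : Fin a, (H.filter fun h => h.1 = l).card ≤ 3) → ∀ i j : ℤ, N ≤ i - 2 * j →
      (D.T (ZMod p) (i, j) (tripS (ZMod p) H)).TB

/-- TB holds in the degrees `i - 2j ≥ N` for the systems of bilinear equations over the prime field in
which every equation is a sum of at most three terms `x_i y_j`. -/
def Systems {p : ℕ} [Fact p.Prime] {E : Type} [Field E] (D : Theory.{w} p E) (N : ℤ) : Prop :=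
  ∀ (a b c : ℕ) (E : Fin c → Finset (Fin a × Fin b)), (∀ l, (E l).card ≤ 3) →
    ∀ i j : ℤ, N ≤ i - 2 * j → (D.T (ZMod p) (i, j) (sysS (ZMod p) E)).TB

lemma all_iff {p : ℕ} [Fact p.Prime] {E : Type} [Field E] [CharZero E] (D : Theory.{w} p E) (N : ℤ) :
    (D.All ↔ Cubics D N) ∧ (D.All ↔ Systems D N) := by
  unfold Cubics Systems
  have hR : Function.Surjective (Int.cast : ℤ → ZMod p) := ZMod.intCast_surjective
  have h := funi D (ZMod p)
  have h0 : D.All ↔ ∀ X : Sch (ZMod p), FT True X → ∀ M : ℤ, ∀ q : ℤ × ℤ,
      -M ≤ q.1 - 2 * q.2 → (D.T (ZMod p) q X).TB := by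
    rw [all_iff_prime]
    refine forall_congr' fun X => imp_congr_right fun _ => ⟨fun h M q _ => h q, fun h q => ?_⟩
    exact h (-(q.1 - 2 * q.2)) q (by rw [neg_neg])
  constructor
  · rw [h0, filtered_deg_iff hR h (-N)]
    refine forall_congr' fun a => forall_congr' fun b => forall_congr' fun c =>
      forall_congr' fun H => imp_congr_right fun _ => ⟨fun h i j hij => h (i, j) ?_,
        fun h q hq => h q.1 q.2 ?_⟩
    · rw [neg_neg]
      exact hij
    · rwa [neg_neg] at hq
  · rw [h0, filtered_iff (short_presents hR) h.toFClo (-N)]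
    refine forall_congr' fun a => forall_congr' fun b => forall_congr' fun c =>
      forall_congr' fun H => imp_congr_right fun _ => ⟨fun h i j hij => h (i, j) ?_,
        fun h q hq => h q.1 q.2 ?_⟩
    · rw [neg_neg]
      exact hij
    · rwa [neg_neg] at hq

/-- **Theorem.** (a) For every integer `N` the following are equivalent: (1) TB(X) holds for all
separated schemes `X` of finite type over all finite fields of characteristic `p`, for all indices
`(i, j)`; (2) it holds in the degrees `i - 2j ≥ N` for the sparse cubics over the prime field; (3) it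
holds in the degrees `i - 2j ≥ N` for the three-term bilinear systems over the prime field.
(b) For each finite field `k` and each `n`: TB(X) holds for all `X` over `k` of dimension at most `n` if
and only if it holds for the hypersurfaces `T(x, y, z) = 1` over `k` of all trilinear forms `T` in three
blocks of variables one of which has at most `n + 2` variables. (c) TB holds for the hypersurfaces
`T(x, y, z) = 1` over `k` if one of the blocks has at most three variables. -/
theorem result {p : ℕ} [Fact p.Prime] {E : Type} [Field E] [CharZero E] (D : Theory.{w} p E) :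
    (∀ N : ℤ, (D.All ↔ Cubics D N) ∧ (D.All ↔ Systems D N)) ∧
    (∀ (k : Type) [Field k] [Finite k] [CharP k p] (n : ℕ), D.Dim k n ↔ D.Block k (n + 2)) ∧
    ∀ (k : Type) [Field k] [Finite k] [CharP k p], D.Block k 3 := by
  have key : ∀ (k : Type) [Field k] [Finite k] [CharP k p] (n : ℕ),
      D.Dim k n ↔ D.Block k (n + 2) := fun k _ _ _ n => dim_iff (bnd D k) n
  exact ⟨all_iff D, key, fun k _ _ _ =>
    (key k 1).mp fun X hX hn => D.curves k X hX (by exact_mod_cast hn)⟩

end Pool.Agent.Results.MP_2ce3e7_ag.SparseCubics
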